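import Pool.Agent.DeckB.RepMain

/-!
# Locally repetitive strings are reconstructible from smaller decks

(1) Let `x` be a concatenation of words `u_1, …, u_r` with periods `q_1, …, q_r`.  If for both
letters `c` the sum of `4 q_i - 2` over the `i < r` with `c` in `u_i`, plus `2 (q_r - 1)`, is less
than `k`, then `x` is reconstructible from its `k`-deck.

(2) If every factor of length `S` of the string `x` of length `n` is a concatenation of words whose
periods have sum at most `m`, then `x` is reconstructible from its `k`-deck for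
`k ≥ 50 m √(n/S) log n`.
-/

namespace Pool.Agent.Results.MP_06bc18_co.LocallyRepetitive

open DeckA DeckB

theorem result :
    (∀ (n k : ℕ) (x : Fin n → Bool) (L : List (List Bool × ℕ)) (b : List Bool × ℕ),
      PeriodicPieces (L ++ [b]) (List.ofFn x) →
      (∀ c : Bool,
        (L.map fun a => if c ∈ a.1 then 4 * a.2 - 2 else 0).sum + 2 * (b.2 - 1) < k) →
      k ≤ n → Reconstructible k x) ∧
    (∀ (n S m k : ℕ) (x : Fin n → Bool), 2 ≤ n → 1 ≤ S → S ≤ n → 1 ≤ m →
      (∀ W : List Bool, W <:+: List.ofFn x → W.length = S →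
        ∃ L : List (List Bool × ℕ), PeriodicPieces L W ∧ (L.map Prod.snd).sum ≤ m) →
      50 * m * Real.sqrt (n / S) * Real.log n ≤ k → k ≤ n → Reconstructible k x) :=
  ⟨fun _ _ x L b hL hk hkn => recon_of_pieces hkn x L b hL hk,
    fun _ _ _ _ x h1 h2 h3 h4 h5 h6 h7 => recon_of_local_pieces h1 h2 h3 h4 x h5 h6 h7⟩

end Pool.Agent.Results.MP_06bc18_co.LocallyRepetitive
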