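import Pool.Agent.DeckB.Type

/-!
# Strings of low discrepancy are reconstructible from smaller decks

`ones x t` is the number of ones among the first `t` letters of `x`.  Suppose that in every window
of length `S` of the string `x` of length `n` the number of ones differs by at most `R` from a
linear function, whose slope `ρ` may depend on the window.

(1) If every multiple `q ρ` with `1 ≤ q < Q` is at distance at least `δ` from all integers, then `x`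
is reconstructible from its `k`-deck for `k ≥ 400 (√(n/S) R/δ + √(n/Q)) log n`.

(2) If the slopes satisfy `|q ρ - a| ≥ c q^(-τ)`, then `k ≥ C (R²/S)^(1/(4τ+2)) √n log n` is enough;
for `S = n` and `τ = 1` this is `C (R n)^(1/3) log n`.
-/

namespace Pool.Agent.Results.MP_06bc18_co.LowDiscrepancy

open DeckA DeckB

theorem result :
    (∀ (n S Q k : ℕ) (R δ : ℝ) (x : Fin n → Bool) (ρ : ℕ → ℝ),
      2 ≤ S → S ≤ n → 1 ≤ Q → Q ≤ S → 0 < δ → δ ≤ R →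
      (∀ s ≤ n, ∀ t ≤ s, s ≤ t + S → |(ones x s : ℝ) - ones x t - ρ s * (s - t)| ≤ R) →
      (∀ s ≤ n, ∀ q : ℕ, 1 ≤ q → q < Q → ∀ a : ℤ, δ ≤ |q * ρ s - a|) →
      400 * (Real.sqrt (n / S) * (R / δ) + Real.sqrt (n / Q)) * Real.log n ≤ k → k ≤ n →
      Reconstructible k x) ∧
    (∀ (n S k : ℕ) (R c τ : ℝ) (x : Fin n → Bool) (ρ : ℕ → ℝ),
      2 ≤ S → S ≤ n → 1 ≤ τ → 0 < c → 1 ≤ R → R ^ 2 ≤ S →
      (∀ s ≤ n, ∀ t ≤ s, s ≤ t + S → |(ones x s : ℝ) - ones x t - ρ s * (s - t)| ≤ R) →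
      (∀ s ≤ n, ∀ q : ℕ, 1 ≤ q → ∀ a : ℤ, c * (q : ℝ) ^ (-τ) ≤ |q * ρ s - a|) →
      400 * (1 + 2 ^ τ / c) * Real.sqrt n * (R ^ 2 / S) ^ (1 / (4 * τ + 2)) * Real.log n ≤ k →
      k ≤ n → Reconstructible k x) :=
  ⟨fun _ _ _ _ _ _ x ρ h1 h2 h3 h4 h5 h6 h7 h8 h9 h10 =>
      recon_of_window (h1.trans h2) h5 h6 h3 h4 h1 h2 x ρ h7 h8 h9 h10,
    fun _ _ _ _ _ _ x ρ h1 h2 h3 h4 h5 h6 h7 h8 h9 h10 =>
      recon_of_type h3 h4 h5 h6 h1 h2 x ρ h8 h7 h9 h10⟩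

end Pool.Agent.Results.MP_06bc18_co.LowDiscrepancy
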