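import Pool.Agent.DeckG.Last
import Pool.Agent.DeckL.Last

/-!
# Strings that are hard to reconstruct are repetitive at every scale

`occ w v` is the number of occurrences of `w` as a factor of `v`, and `seldom l M v` is the number of
positions of the first quarter of `v` at which a factor of length `l` starts that occurs at most `M`
times in `v`.

(1) Let `x ≠ y` be strings of length `n` with the same `k`-deck, `x = u a` and `y = u b` where `a`
and `b` begin with different letters, `1 ≤ l ≤ S ≤ s ≤ n`, `0 < θ ≤ 1` and `M ≥ 0`.  If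
`k ≥ 5 10^6 l √(n / s) (M + √(S log n / θ)) (log n)^6 / θ`, then `a` has a prefix `v` with
`S ≤ |v| ≤ s` and `seldom l M v < θ |v|`.  The same holds at the other end, for the reversed strings.

(2) Hence `x` is reconstructible from its `k`-deck if every factor `v` of `x` with `S ≤ |v| ≤ s` has
at least `δ |v|` different factors of length `l` and
`k ≥ 10^9 l √(n / s) (1 / δ + √(S log n / δ)) (log n)^6 / δ`; if this is true for all factors `v` with
`|v| ≥ S`, then also for `k ≥ S + 10^5 l (log n)^4 / δ^3`.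

(3) If `0 < ε < 1/9`, `n` is large and `k ≥ n^(1/2 - ε)`, then in (1) for every integer `S` with
`n^ε ≤ S ≤ n^(1 - 8 ε)` the string `a` has a prefix `v` with `S ≤ |v| ≤ n^(8 ε) S` such that less than
`n^(-ε) |v|` positions of its first quarter start a factor of length `⌈n^ε⌉` that occurs at most `√S`
times in `v`.
-/

namespace Pool.Agent.Results.MP_06bc18_co.ManyFactors

open DeckA DeckG DeckL

theorem result :
    (∀ (n l S s k M : ℕ) (θ : ℝ), 2 ≤ n → 1 ≤ l → l ≤ S → S ≤ s → s ≤ n → 0 < θ → θ ≤ 1 →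
      5 * 10 ^ 6 * (l * Real.sqrt (n / s) * (M + Real.sqrt (S * Real.log n / θ)) *
        Real.log n ^ 6 / θ) ≤ k → k ≤ n →
      ∀ x y : Fin n → Bool, deck k x = deck k y → ∀ u a b : List Bool,
        (List.ofFn x = u ++ a → List.ofFn y = u ++ b → a.head? ≠ b.head? →
          ∃ v, v <+: a ∧ S ≤ v.length ∧ v.length ≤ s ∧ seldom l M v < θ * v.length) ∧
        (List.ofFn x = a ++ u → List.ofFn y = b ++ u → a.getLast? ≠ b.getLast? →
          ∃ v, v <+: a.reverse ∧ S ≤ v.length ∧ v.length ≤ s ∧ seldom l M v < θ * v.length)) ∧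
    (∀ (n l S s k : ℕ) (δ : ℝ) (x : Fin n → Bool), 2 ≤ n → 1 ≤ l → l ≤ S → S ≤ s → s ≤ n →
      0 < δ → δ ≤ 1 →
      (∀ v : List Bool, v <:+: List.ofFn x → S ≤ v.length → v.length ≤ s →
        δ * v.length ≤ nfac l v) →
      (10 ^ 9 * (l * Real.sqrt (n / s) * (1 / δ + Real.sqrt (S * Real.log n / δ)) *
        Real.log n ^ 6 / δ) ≤ k ∨
        (s = n ∧ S + 10 ^ 5 * l * Real.log n ^ 4 / δ ^ 3 ≤ k)) →
      k ≤ n → Reconstructible k x) ∧
    (∀ ε : ℝ, 0 < ε → ε < 1 / 9 → ∃ N : ℕ, ∀ n k : ℕ, N ≤ n → k ≤ n →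
      (n : ℝ) ^ (1 / 2 - ε) ≤ k → ∀ x y : Fin n → Bool, deck k x = deck k y →
      ∀ u a b : List Bool, List.ofFn x = u ++ a → List.ofFn y = u ++ b → a.head? ≠ b.head? →
      ∀ S : ℕ, (n : ℝ) ^ ε ≤ S → S ≤ (n : ℝ) ^ (1 - 8 * ε) →
      ∃ v, v <+: a ∧ S ≤ v.length ∧ v.length ≤ (n : ℝ) ^ (8 * ε) * S ∧
        seldom ⌈(n : ℝ) ^ ε⌉₊ (Nat.sqrt S) v < (n : ℝ) ^ (-ε) * v.length) := by
  refine ⟨?_, ?_, fun ε h1 h2 => DeckL.all_scales h1 h2⟩
  · intro n l S s k M θ h1 h2 h3 h4 h5 h6 h7 h8 h9 x y hxy u a b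
    exact DeckL.pair_main h1 h2 h3 h4 h5 h6 h7 h8 h9 x y hxy u a b
  · rintro n l S s k δ x h1 h2 h3 h4 h5 h6 h7 hx (hk | ⟨rfl, hk⟩) hkn
    · exact DeckL.recon_local h1 h2 h3 h4 h5 h6 h7 hk hkn x hx
    · refine recon_of_factors x h1 h2 h3 h4 h6 h7 (fun v hv hvl => hx v hv hvl ?_) (Or.inl hk) hkn
      obtain ⟨u, w, huw⟩ := hv
      have := congrArg List.length huw
      rw [List.length_append, List.length_append, List.length_ofFn] at this
      omega

end Pool.Agent.Results.MP_06bc18_co.ManyFactors
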