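import Pool.Agent.DeckA.Typical

/-!
# Random strings are reconstructible from decks of logarithmic size

For a product measure on `{0,1}^n` with all probabilities in `[ε, 1 - ε]`, the probability that a
string is not reconstructible from its `k`-deck is at most `n^2 (1 - ε)^l / 2` as soon as
`2 l + 1 ≤ k ≤ n`.  For uniformly random strings this gives a threshold of order `log n`, the lower
bound being a count of the possible decks.
-/

namespace Pool.Agent.Results.MP_06bc18_co.RandomStrings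

open DeckA

theorem result :
    (∀ (n k l : ℕ) (ε : ℝ) (p : Fin n → ℝ), 0 ≤ ε → (∀ i, ε ≤ p i ∧ p i ≤ 1 - ε) →
      2 * l + 1 ≤ k → k ≤ n →
      1 - (n : ℝ) ^ 2 / 2 * (1 - ε) ^ l ≤ prob p {x | Reconstructible k x}) ∧
    (∀ δ : ℝ, 0 < δ → ∃ N : ℕ, ∀ n : ℕ, N ≤ n → ∀ k : ℕ, k ≤ n →
      ((4 + δ) * Real.logb 2 n ≤ k →
        (1 - δ) * 2 ^ n ≤ (Nat.card {x : Fin n → Bool // Reconstructible k x} : ℝ)) ∧
      ((k : ℝ) ≤ (1 - δ) * Real.logb 2 n →
        (Nat.card {x : Fin n → Bool // Reconstructible k x} : ℝ) ≤ δ * 2 ^ n)) := by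
  refine ⟨fun n k l ε p hε hp hk hkn => smoothed_prob hk hkn p hε hp, fun δ hδ => ?_⟩
  obtain ⟨N, hN⟩ := typical hδ
  exact ⟨N, fun n hn k hkn => ⟨fun h => (hN n hn k).1 h hkn, (hN n hn k).2⟩⟩

end Pool.Agent.Results.MP_06bc18_co.RandomStrings
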